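import Pool.Agent.Helper40.Nil.Stmts2

set_option autoImplicit false

namespace Pool.Agent.Helper40.Nil

open Matrix

universe u

section trin

variable {E : Type u} [Field E] {n : ℕ}

/-- matrices supported on `j ≥ i + k` -/
def trin_I (k : ℕ) (x : Matrix (Fin n) (Fin n) E) : Prop :=
  ∀ i j : Fin n, (j : ℕ) < i + k → x i j = 0

theorem trin_mul {k l : ℕ} {x y : Matrix (Fin n) (Fin n) E} (hx : trin_I k x) (hy : trin_I l y) :
    trin_I (k + l) (x * y) := by
  intro i j hij
  rw [Matrix.mul_apply]
  apply Finset.sum_eq_zero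
  intro m _
  by_cases h : (m : ℕ) < i + k
  · rw [hx i m h, zero_mul]
  · rw [hy m j (by omega), mul_zero]

theorem trin_mono {k l : ℕ} (h : k ≤ l) {x : Matrix (Fin n) (Fin n) E} (hx : trin_I l x) :
    trin_I k x := fun i j hij => hx i j (by omega)

theorem trin_sub {k : ℕ} {x y : Matrix (Fin n) (Fin n) E} (hx : trin_I k x) (hy : trin_I k y) :
    trin_I k (x - y) := by
  intro i j hij
  rw [Matrix.sub_apply, hx i j hij, hy i j hij, sub_zero]

theorem trin_add {k : ℕ} {x y : Matrix (Fin n) (Fin n) E} (hx : trin_I k x) (hy : trin_I k y) :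
    trin_I k (x + y) := by
  intro i j hij
  rw [Matrix.add_apply, hx i j hij, hy i j hij, add_zero]

theorem trin_neg {k : ℕ} {x : Matrix (Fin n) (Fin n) E} (hx : trin_I k x) :
    trin_I k (-x) := by
  intro i j hij
  rw [Matrix.neg_apply, hx i j hij, neg_zero]

theorem trin_one : trin_I 0 (1 : Matrix (Fin n) (Fin n) E) := by
  intro i j hij
  apply Matrix.one_apply_ne
  rintro rfl
  omega

theorem trin_inv (g : GL (Fin n) E) (hg : trin_I 0 g.1) : trin_I 0 (g⁻¹ : GL (Fin n) E).1 := by
  have h1 : BlockTriangular g.1 (id : Fin n → Fin n) := by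
    intro i j hij
    apply hg i j
    have : (j : ℕ) < i := hij
    omega
  have hinv : Invertible g.1 := g.invertible
  have h2 := blockTriangular_inv_of_blockTriangular h1
  intro i j hij
  have e : (g⁻¹ : GL (Fin n) E).1 = (g.1)⁻¹ := Matrix.coe_units_inv g
  rw [e]
  apply h2
  show j < i
  have : (j : ℕ) < i := by omega
  exact this

/-- the groups `1 + I_k` -/
def trin_U (E : Type u) [Field E] (n : ℕ) (k : ℕ) : Subgroup (GL (Fin n) E) where
  carrier := {g | trin_I k (g.1 - 1)}
  mul_mem' := by
    intro g h hg hh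
    have e : (g * h).1 - 1 = (g.1 - 1) * (h.1 - 1) + ((g.1 - 1) + (h.1 - 1)) := by
      rw [Units.val_mul]
      noncomm_ring
    show trin_I k ((g * h).1 - 1)
    rw [e]
    exact trin_add (trin_mono (by omega) (trin_mul hg hh)) (trin_add hg hh)
  one_mem' := by
    show trin_I k ((1 : GL (Fin n) E).1 - 1)
    intro i j _
    simp
  inv_mem' := by
    intro g hg
    have h0 : trin_I 0 g.1 := by
      have e : g.1 = (g.1 - 1) + 1 := by abel
      rw [e]
      exact trin_add (trin_mono (Nat.zero_le _) hg) trin_one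
    have h1 := trin_inv g h0
    have e : (g⁻¹ : GL (Fin n) E).1 - 1 = -((g.1 - 1) * (g⁻¹ : GL (Fin n) E).1) := by
      rw [sub_mul, one_mul, ← Units.val_mul, mul_inv_cancel, Units.val_one]
      abel
    show trin_I k ((g⁻¹ : GL (Fin n) E).1 - 1)
    rw [e]
    have := trin_mul hg h1
    rw [add_zero] at this
    exact trin_neg this

theorem trin_zero (k : ℕ) (g : GL (Fin n) E) (hg : g ∈ trin_U E n k) : trin_I 0 g.1 := by
  have e : g.1 = (g.1 - 1) + 1 := by abel
  rw [e]
  exact trin_add (trin_mono (Nat.zero_le _) hg) trin_one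

theorem trin_commeq (x g : GL (Fin n) E) :
    (x * g * x⁻¹ * g⁻¹).1 - 1 = (x.1 * g.1 - g.1 * x.1) * ((g * x)⁻¹ : GL (Fin n) E).1 := by
  rw [sub_mul, ← Units.val_mul, ← Units.val_mul, ← Units.val_mul, ← Units.val_mul,
    mul_inv_cancel, Units.val_one, _root_.mul_inv_rev]
  congr 2
  group

theorem trin_comm (k l : ℕ) (x g : GL (Fin n) E) (hx : x ∈ trin_U E n k) (hg : g ∈ trin_U E n l) :
    x * g * x⁻¹ * g⁻¹ ∈ trin_U E n (k + l) := by
  show trin_I (k + l) ((x * g * x⁻¹ * g⁻¹).1 - 1)
  rw [trin_commeq]
  have e : x.1 * g.1 - g.1 * x.1 = (x.1 - 1) * (g.1 - 1) - (g.1 - 1) * (x.1 - 1) := by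
    noncomm_ring
  have h1 : trin_I (k + l) (x.1 * g.1 - g.1 * x.1) := by
    rw [e]
    apply trin_sub (trin_mul hx hg)
    rw [add_comm]
    exact trin_mul hg hx
  have h2 : trin_I 0 (g * x).1 := by
    rw [Units.val_mul]
    have := trin_mul (trin_zero l g hg) (trin_zero k x hx)
    exact this
  have := trin_mul h1 (trin_inv (g * x) h2)
  rw [add_zero] at this
  exact this

/-- diagonal of a product of upper triangular matrices -/
theorem trin_diag (x y : Matrix (Fin n) (Fin n) E) (hx : trin_I 0 x) (hy : trin_I 0 y) (i : Fin n) :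
    (x * y) i i = x i i * y i i := by
  rw [Matrix.mul_apply]
  apply Finset.sum_eq_single i
  · intro m _ hm
    rcases lt_or_gt_of_ne hm with h | h
    · rw [hx i m (by have : (m : ℕ) < i := h; omega), zero_mul]
    · rw [hy m i (by have : (i : ℕ) < m := h; omega), mul_zero]
  · intro h
    exact absurd (Finset.mem_univ i) h

theorem trin_BB (x g : GL (Fin n) E) (hx : trin_I 0 x.1) (hg : trin_I 0 g.1) :
    x * g * x⁻¹ * g⁻¹ ∈ trin_U E n 1 := by
  show trin_I 1 ((x * g * x⁻¹ * g⁻¹).1 - 1)
  rw [trin_commeq]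
  have h1 : trin_I 1 (x.1 * g.1 - g.1 * x.1) := by
    intro i j hij
    by_cases h : j = i
    · subst h
      rw [Matrix.sub_apply, trin_diag _ _ hx hg, trin_diag _ _ hg hx]
      ring
    · have hlt : (j : ℕ) < i := by
        have : (j : ℕ) ≠ i := fun h' => h (Fin.ext h')
        omega
      exact trin_sub (trin_mul hx hg) (trin_mul hg hx) i j (by omega)
  have h2 : trin_I 0 (g * x).1 := by
    rw [Units.val_mul]
    exact trin_mul hg hx
  have := trin_mul h1 (trin_inv (g * x) h2)
  rw [add_zero] at this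
  exact this

/-- a subgroup which maps injectively into the unitriangular group is nilpotent -/
theorem trin_nil {G : Type u} [Group G] (N : Subgroup G) (f : G →* GL (Fin n) E)
    (hf : Function.Injective f) (hN : ∀ x ∈ N, f x ∈ trin_U E n 1) : Group.IsNilpotent N := by
  rw [Subgroup.nilpotent_iff_finite_descending_central_series]
  refine ⟨n, fun k => (trin_U E n (k + 1)).comap (f.comp N.subtype), ⟨?_, ?_⟩, ?_⟩
  · rw [eq_top_iff]
    intro x _
    exact hN x.1 x.2
  · intro x k hx g
    have h1 := trin_comm (k + 1) 1 (f x.1) (f g.1) hx (hN g.1 g.2)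
    show f ((x * g * x⁻¹ * g⁻¹ : N) : G) ∈ trin_U E n (k + 1 + 1)
    simpa using h1
  · rw [eq_bot_iff]
    intro x hx
    have h1 : trin_I (n + 1) ((f x.1).1 - 1) := hx
    have h2 : f x.1 = 1 := by
      apply Units.ext
      rw [Units.val_one, ← sub_eq_zero]
      ext i j
      exact h1 i j (by have := j.2; omega)
    have h3 : x.1 = 1 := hf (by rw [h2, map_one])
    rw [Subgroup.mem_bot]
    exact Subtype.ext h3

end trin

theorem st_TRIN : ST_TRIN.{u} := by
  intro K _ n a b hab
  obtain ⟨P, hP⟩ := hab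
  set E := AlgebraicClosure K with hE
  set f : GL (Fin n) K →* GL (Fin n) E :=
    (MulAut.conj P⁻¹).toMonoidHom.comp (Matrix.GeneralLinearGroup.map (algebraMap K E)) with hf
  have hfinj : Function.Injective f := by
    intro x y hxy
    have h1 : Matrix.GeneralLinearGroup.map (algebraMap K E) x =
        Matrix.GeneralLinearGroup.map (algebraMap K E) y :=
      (MulAut.conj (P⁻¹ : GL (Fin n) E)).injective hxy
    apply Units.ext
    ext i j
    have h2 := congrArg (fun z : GL (Fin n) E => z.1 i j) h1
    exact (algebraMap K E).injective h2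
  have hfv : ∀ x : GL (Fin n) K, (f x).1 =
      (P⁻¹ : GL (Fin n) E).1 * x.1.map (algebraMap K E) * P.1 := by
    intro x
    have : f x = P⁻¹ * Matrix.GeneralLinearGroup.map (algebraMap K E) x * P := by
      rw [hf]
      simp
    rw [this, Units.val_mul, Units.val_mul]
    rfl
  -- the closure is mapped into the triangular group
  set B : Subgroup (GL (Fin n) K) := (trin_U E n 0).comap f with hB
  have hmem : ∀ x : GL (Fin n) K, trin_I 0 (f x).1 → x ∈ B := by
    intro x hx
    show trin_I 0 ((f x).1 - 1)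
    exact trin_sub hx trin_one
  have ha : a ∈ B := by
    apply hmem
    intro i j hij
    rw [hfv]
    exact (hP i j (by have : (j : ℕ) < i := by omega
                      exact this)).1
  have hb : b ∈ B := by
    apply hmem
    intro i j hij
    rw [hfv]
    exact (hP i j (by have : (j : ℕ) < i := by omega
                      exact this)).2
  have hcl : Subgroup.closure {a, b} ≤ B := by
    rw [Subgroup.closure_le]
    intro x hx
    rcases hx with rfl | hx
    · exact ha
    · rw [Set.mem_singleton_iff] at hx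
      subst hx
      exact hb
  apply trin_nil _ f hfinj
  have hle : (⁅Subgroup.closure {a, b}, Subgroup.closure {a, b}⁆ : Subgroup (GL (Fin n) K)) ≤
      (trin_U E n 1).comap f := by
    rw [Subgroup.commutator_le]
    intro x hx y hy
    rw [Subgroup.mem_comap]
    have h1 := trin_BB (f x) (f y) (trin_zero 0 _ (hcl hx)) (trin_zero 0 _ (hcl hy))
    rw [commutatorElement_def, map_mul, map_mul, map_mul, map_inv, map_inv]
    exact h1
  exact fun x hx => hle hx

end Pool.Agent.Helper40.Nil
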